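import Pool.Agent.Lib_MP_92ef0c_si.Defs

/-! # [SI-A] the activities -/

set_option autoImplicit false

namespace Pool.MP_92ef0c_nt.SI

open Finset
open Pool.MP_92ef0c_nt.SG (nbr kap)

private theorem two_mul_log_le_act (u : ℕ) : 2 * Nat.log 2 u ≤ u := by
  rcases Nat.eq_zero_or_pos u with h0 | h0
  · subst h0; simp
  · have h1 : 2 ^ Nat.log 2 u ≤ u := Nat.pow_log_le_self 2 h0.ne'
    have h2 : ∀ k : ℕ, 2 * k ≤ 2 ^ k := by
      intro k
      induction k with
      | zero => simp
      | succ k ih =>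
        rcases Nat.eq_zero_or_pos k with hk | hk
        · subst hk; norm_num
        · rw [pow_succ]; omega
    exact (h2 _).trans h1

/-- [SI-A] as `act_le` of `Lib_MP_92ef0c_sg/Act.lean` -/
theorem act_le (lam : Finset ℕ → ℝ) (hlam : ∀ A, 0 ≤ lam A) (bb : ℕ → ℝ) (hbb : ∀ j, 1 ≤ bb j)
    (hbd : ∀ (j : ℕ) (A : Finset ℕ), (∀ s ∈ A, ∀ t ∈ A, t ≤ s + j) → lam A ≤ bb j)
    (w : ℕ → ℕ) (hmono : Monotone w) (hw : ∀ n, w n ≤ Nat.log 2 n) (v : ℕ) (S : Finset ℕ)
    (hv : v ∉ S) : ∏ A ∈ S.powerset, kap lam w (insert v A) ≤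
      (bb (w (2 * v))) ^ (w (2 * v) * 4 ^ w (2 * v)) := by
  classical
  set j := w (2 * v) with hj
  set b : ℝ := bb j with hb
  have hb1 : 1 ≤ b := hbb j
  -- elements of a set with a nontrivial factor
  have key : ∀ A ∈ S.powerset, kap lam w (insert v A) ≠ 1 →
      A ≠ ∅ ∧ A ⊆ (Icc (v - j) (v + j)).erase v ∧ kap lam w (insert v A) ≤ b := by
    intro A hA hne
    have hAS := Finset.mem_powerset.1 hA
    have hcond : 2 ≤ (insert v A).card ∧ ∀ s ∈ insert v A, ∀ t ∈ insert v A, nbr w s t := by
      by_contra hc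
      exact hne (by unfold kap; rw [if_neg hc])
    have hvj : w v ≤ j := hmono (by omega)
    have hel : ∀ u ∈ insert v A, w u ≤ j := by
      intro u hu
      have hn := (hcond.2 u hu v (Finset.mem_insert_self v A)).1
      have h2 := two_mul_log_le_act u
      have h3 := hw u
      exact hmono (by omega)
    refine ⟨?_, ?_, ?_⟩
    · rintro rfl
      have := hcond.1
      simp at this
    · intro u hu
      have hu' : u ∈ insert v A := Finset.mem_insert_of_mem hu
      have hn := hcond.2 u hu' v (Finset.mem_insert_self v A)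
      have h1 := hn.1
      have h2 := hn.2
      have h3 := hel u hu'
      refine Finset.mem_erase.2 ⟨?_, Finset.mem_Icc.2 ⟨by omega, by omega⟩⟩
      rintro rfl
      exact hv (hAS hu)
    · have hk : kap lam w (insert v A) = lam (insert v A) := by
        unfold kap; rw [if_pos hcond]
      rw [hk]
      refine hbd j _ ?_
      intro s hs t ht
      have h1 := (hcond.2 s hs t ht).2
      have h2 := hel t ht
      omega
  rw [← Finset.prod_filter_ne_one]
  set F := S.powerset.filter (fun A => kap lam w (insert v A) ≠ 1) with hF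
  have hprod : ∏ A ∈ F, kap lam w (insert v A) ≤ b ^ F.card := by
    have h0 : ∀ A ∈ F, 0 ≤ kap lam w (insert v A) := by
      intro A _
      unfold kap
      split_ifs
      · exact hlam _
      · exact zero_le_one
    have h1 : ∀ A ∈ F, kap lam w (insert v A) ≤ b := by
      intro A hA
      obtain ⟨hA1, hA2⟩ := Finset.mem_filter.1 hA
      exact (key A hA1 hA2).2.2
    have := Finset.prod_le_prod h0 h1
    rwa [Finset.prod_const] at this
  have hcard : F.card ≤ 4 ^ j := by
    have hsub : F ⊆ ((Icc (v - j) (v + j)).erase v).powerset := by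
      intro A hA
      obtain ⟨hA1, hA2⟩ := Finset.mem_filter.1 hA
      exact Finset.mem_powerset.2 (key A hA1 hA2).2.1
    have h1 := Finset.card_le_card hsub
    rw [Finset.card_powerset] at h1
    have hve : v ∈ Icc (v - j) (v + j) := Finset.mem_Icc.2 ⟨by omega, by omega⟩
    have h2 : ((Icc (v - j) (v + j)).erase v).card ≤ 2 * j := by
      rw [Finset.card_erase_of_mem hve, Nat.card_Icc]
      omega
    calc F.card ≤ 2 ^ ((Icc (v - j) (v + j)).erase v).card := h1
      _ ≤ 2 ^ (2 * j) := Nat.pow_le_pow_right (by norm_num) h2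
      _ = 4 ^ j := by rw [pow_mul]; norm_num
  have hcard2 : F.card ≤ j * 4 ^ j := by
    rcases Nat.eq_zero_or_pos j with h0 | h0
    · have hFe : F = ∅ := by
        refine Finset.eq_empty_of_forall_notMem fun A hA => ?_
        obtain ⟨hA1, hA2⟩ := Finset.mem_filter.1 hA
        obtain ⟨hne, hsub, _⟩ := key A hA1 hA2
        apply hne
        refine Finset.eq_empty_of_forall_notMem fun u hu => ?_
        obtain ⟨h1, h2⟩ := Finset.mem_erase.1 (hsub hu)
        have h3 := Finset.mem_Icc.1 h2
        apply h1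
        omega
      rw [hFe]
      simp
    · calc F.card ≤ 4 ^ j := hcard
        _ = 1 * 4 ^ j := (one_mul _).symm
        _ ≤ j * 4 ^ j := Nat.mul_le_mul_right _ h0
  calc ∏ A ∈ F, kap lam w (insert v A) ≤ b ^ F.card := hprod
    _ ≤ b ^ (j * 4 ^ j) := pow_le_pow_right₀ hb1 hcard2
    _ = _ := by rw [hb]

end Pool.MP_92ef0c_nt.SI
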