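import Pool.Agent.Lib_MP_92ef0c_si.Comp
import Pool.Agent.Lib_MP_92ef0c_sg.Energy
import Pool.Agent.Lib_MP_92ef0c_sg.Signs
import Pool.Agent.Lib_MP_92ef0c_sg.Code

/-! # [SI-6] comparison by bilinear sums -/

set_option autoImplicit false

namespace Pool.MP_92ef0c_nt.SI

open Finset
open Pool.MP_92ef0c_nt.PB (Pz V zz Rough rho)
open Pool.MP_92ef0c_nt.SH (EX ind rr gg Bd Prim IsD SSL Del Lam Exc Inter)
open Pool.MP_92ef0c_nt.SG (nbr kap wtG muG sites Par Er Wid Tst sg conv bilc FF signs code_exists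
  conv_sum energy sg_abs)

/-- [SI-6b] PROOF: if `m₀ = 0` or `n₀ = 0` the sum is empty. Otherwise `signs` gives `A`, `B`; `code_exists` the index `i`;
`conv_sum` turns the sum into `∑_{r ∈ Ioc 0 (m₀ n₀)} FF F i r * (ind P L r - ind P' L r)`; `compare_gen` with the weights `FF F`, the index
`i`, `u = 0`, `v = m₀ n₀ ≤ x`; `log (x + i) ≤ log x + log (i + 2) ≤ log x + (4 s + 7) log 2 ≤ C s log x` (`s = m₀ + n₀ ≥ 2`), `energy`
(`sg_abs`) with `1 + log m₀ ≤ C log x` (`m₀ ≤ x`); so the bound is `C √(log x * s log x * m₀ n₀ log x) ≤ C (log x)^2 √(m₀ n₀ s)`. -/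
theorem compare_bil (N₁ : ℕ) (lam lam' : Finset ℕ → ℝ)
    (w w' : ℕ → ℕ) (hw : Wid N₁ lam w) (hw' : Wid N₁ lam' w') (k R : ℕ) :
    ∃ K : ℝ, 0 < K ∧ ∀ (F : ℕ → ℕ → ℝ) (P P' : Set ℕ), Tst N₁ lam w (FF F) P →
      Tst N₁ lam' w' (FF F) P' →
      ∀ (x : ℕ) (L : Finset (ℕ × ℕ)), 2 ≤ x → L.card = k →
        (∀ l ∈ L, 0 < l.1 ∧ l.1 ≤ x ∧ l.2 ≤ x) → Near lam R L → Near lam' R L →
        (∀ n, facn lam L n = facn lam' L n) →
        ∀ (m₀ n₀ : ℕ), m₀ * n₀ ≤ x → ∀ α β : ℕ → ℝ, (∀ m, |α m| ≤ 1) → (∀ n, |β n| ≤ 1) →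
          |∑ m ∈ Icc 1 m₀, ∑ n ∈ Icc 1 n₀, α m * β n * (ind P L (m * n) - ind P' L (m * n))| ≤
            K * (Real.log x) ^ 2 * √((m₀ : ℝ) * n₀ * (m₀ + n₀)) := by
  obtain ⟨K0, hK0, hcmp⟩ := compare_gen N₁ lam lam' w w' hw hw' k R
  refine ⟨10 * K0, by positivity, ?_⟩
  intro F P P' hP hP' x L hx hk hL hN hN' hS m₀ n₀ hmn α β hα hβ
  have hx0 : (2 : ℝ) ≤ x := by exact_mod_cast hx
  have hlog2 := Real.log_two_gt_d9
  have hlogx : Real.log 2 ≤ Real.log x := Real.log_le_log (by norm_num) hx0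
  have hlx : 0 < Real.log x := by linarith
  rcases Nat.eq_zero_or_pos m₀ with hm0 | hm0
  · subst hm0
    have h0 : ∑ m ∈ Icc 1 0, ∑ n ∈ Icc 1 n₀, α m * β n * (ind P L (m * n) - ind P' L (m * n)) = 0 := by
      rw [show Icc 1 0 = (∅ : Finset ℕ) from rfl]
      exact Finset.sum_empty
    rw [h0, abs_zero]
    positivity
  rcases Nat.eq_zero_or_pos n₀ with hn0 | hn0
  · subst hn0
    have h0 : ∑ m ∈ Icc 1 m₀, ∑ n ∈ Icc 1 0, α m * β n * (ind P L (m * n) - ind P' L (m * n)) = 0 := by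
      refine Finset.sum_eq_zero fun m _ => ?_
      rw [show Icc 1 0 = (∅ : Finset ℕ) from rfl]
      exact Finset.sum_empty
    rw [h0, abs_zero]
    positivity
  obtain ⟨A, B, hA, hB, hsg⟩ := signs m₀ n₀ (fun r => ind P L r - ind P' L r) α β hα hβ
  obtain ⟨i, hi, hi2⟩ := code_exists F m₀ n₀ A B hA hB
  have h1 := hcmp (FF F) P P' hP hP' x i L hx hk hL hN hN' hS 0 (m₀ * n₀) (Nat.zero_le _) hmn
  have h2 := conv_sum m₀ n₀ (sg A) (sg B) (fun r => ind P L r - ind P' L r)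
  have h3 := energy m₀ n₀ (sg A) (sg B) (sg_abs A) (sg_abs B)
  rw [← hi] at h2 h3
  rw [h2] at h1
  refine hsg.trans (h1.trans ?_)
  -- the numbers
  have hm1 : (1 : ℝ) ≤ m₀ := by exact_mod_cast hm0
  have hn1 : (1 : ℝ) ≤ n₀ := by exact_mod_cast hn0
  have hi0 : (0 : ℝ) ≤ i := Nat.cast_nonneg _
  have hlogm : Real.log m₀ ≤ Real.log x := by
    apply Real.log_le_log (by linarith)
    have h4 : m₀ ≤ x := le_trans (Nat.le_mul_of_pos_right m₀ hn0) hmn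
    exact_mod_cast h4
  have hlogxi : Real.log ((x : ℝ) + i) ≤ 8 * ((m₀ : ℝ) + n₀) * Real.log x := by
    have h4 : (x : ℝ) + i ≤ x * ((i : ℝ) + 2) := by nlinarith
    have h5 : Real.log ((x : ℝ) + i) ≤ Real.log x + Real.log ((i : ℝ) + 2) := by
      rw [← Real.log_mul (by linarith) (by linarith)]
      exact Real.log_le_log (by linarith) h4
    have h6 : Real.log ((i : ℝ) + 2) ≤ (4 * ((m₀ : ℝ) + n₀) + 7) * Real.log 2 := by
      have h7 : ((i : ℝ) + 2) ≤ (2 : ℝ) ^ (4 * (m₀ + n₀) + 7) := by exact_mod_cast hi2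
      have h8 := Real.log_le_log (by linarith) h7
      rw [Real.log_pow] at h8
      push_cast at h8
      exact h8
    have h7 : (4 * ((m₀ : ℝ) + n₀) + 7) * Real.log 2 ≤ (4 * ((m₀ : ℝ) + n₀) + 7) * Real.log x :=
      mul_le_mul_of_nonneg_left hlogx (by linarith)
    nlinarith
  have hener : ∑ r ∈ Ioc 0 (m₀ * n₀), (FF F i r) ^ 2 ≤ 6 * ((m₀ : ℝ) * n₀) * Real.log x := by
    refine h3.trans ?_
    have h4 : 1 + Real.log m₀ ≤ 3 * Real.log x := by linarith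
    have h5 : (0 : ℝ) ≤ 2 * m₀ * n₀ := by positivity
    nlinarith [mul_le_mul_of_nonneg_left h4 h5]
  have hE0 : 0 ≤ ∑ r ∈ Ioc 0 (m₀ * n₀), (FF F i r) ^ 2 := sum_nonneg fun _ _ => sq_nonneg _
  have hxi0 : 0 ≤ Real.log ((x : ℝ) + i) := Real.log_nonneg (by linarith)
  have hprod : Real.log x * Real.log ((x : ℝ) + i) * ∑ r ∈ Ioc 0 (m₀ * n₀), (FF F i r) ^ 2 ≤
      (10 * (Real.log x) ^ 2) ^ 2 * ((m₀ : ℝ) * n₀ * (m₀ + n₀)) := by
    have h4 : Real.log x * Real.log ((x : ℝ) + i) * ∑ r ∈ Ioc 0 (m₀ * n₀), (FF F i r) ^ 2 ≤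
        Real.log x * (8 * ((m₀ : ℝ) + n₀) * Real.log x) * (6 * ((m₀ : ℝ) * n₀) * Real.log x) := by
      refine mul_le_mul (mul_le_mul_of_nonneg_left hlogxi hlx.le) hener hE0 (by positivity)
    refine h4.trans ?_
    have h5 : Real.log x * (8 * ((m₀ : ℝ) + n₀) * Real.log x) * (6 * ((m₀ : ℝ) * n₀) * Real.log x) =
        48 * (Real.log x) ^ 3 * ((m₀ : ℝ) * n₀ * (m₀ + n₀)) := by ring
    rw [h5]
    have h6 : 48 * (Real.log x) ^ 3 ≤ (10 * (Real.log x) ^ 2) ^ 2 := by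
      have h7 : 0 < (Real.log x) ^ 3 := by positivity
      nlinarith
    exact mul_le_mul_of_nonneg_right h6 (by positivity)
  have hsq : √(Real.log x * Real.log ((x : ℝ) + i) * ∑ r ∈ Ioc 0 (m₀ * n₀), (FF F i r) ^ 2) ≤
      10 * (Real.log x) ^ 2 * √((m₀ : ℝ) * n₀ * (m₀ + n₀)) := by
    refine (Real.sqrt_le_sqrt hprod).trans_eq ?_
    rw [Real.sqrt_mul (by positivity), Real.sqrt_sq (by positivity)]
  calc K0 * √(Real.log x * Real.log ((x : ℝ) + i) * ∑ r ∈ Ioc 0 (m₀ * n₀), (FF F i r) ^ 2)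
      ≤ K0 * (10 * (Real.log x) ^ 2 * √((m₀ : ℝ) * n₀ * (m₀ + n₀))) :=
        mul_le_mul_of_nonneg_left hsq hK0.le
    _ = _ := by ring

end Pool.MP_92ef0c_nt.SI
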