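import Pool.Agent.Lib_MP_92ef0c_si.Defs

/-! # [SI-E2] the factor of a system -/

set_option autoImplicit false

namespace Pool.MP_92ef0c_nt.SI

open Finset
open Pool.MP_92ef0c_nt.SG (sites Par)

/-- [SI-E2] -/
theorem facn_bound (lam : Finset ℕ → ℝ) (hlam : Adm lam) (k R : ℕ) :
    ∃ K : ℝ, 1 ≤ K ∧ ∀ L : Finset (ℕ × ℕ), L.card = k → Near lam R L →
      ∀ n, 0 ≤ facn lam L n ∧ facn lam L n ≤ K := by
  classical
  obtain ⟨b, hb⟩ := hlam.2 R
  obtain ⟨K0, hK0⟩ : ∃ K0, K0 = max b 1 := ⟨_, rfl⟩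
  have h1 : 1 ≤ K0 := by rw [hK0]; exact le_max_right _ _
  refine ⟨K0 ^ (2 ^ k), one_le_pow₀ h1, fun L hk hN n => ?_⟩
  have h0 : ∀ A ∈ L.powerset, 0 ≤ (if 2 ≤ A.card ∧ Par A then lam (sites A n) else 1) := by
    intro A _
    split_ifs
    · exact hlam.1 _
    · exact zero_le_one
  have h2 : ∀ A ∈ L.powerset, (if 2 ≤ A.card ∧ Par A then lam (sites A n) else 1) ≤ K0 := by
    intro A hA
    split_ifs with hc
    · rcases hN A (Finset.mem_powerset.1 hA) hc.1 hc.2 with h3 | h3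
      · rw [hK0]
        refine le_trans (hb _ ?_) (le_max_left _ _)
        intro s hs t ht
        unfold sites at hs ht
        rw [Finset.mem_image] at hs ht
        obtain ⟨l, hl, rfl⟩ := hs
        obtain ⟨l', hl', rfl⟩ := ht
        have h4 := h3 l' hl' l hl
        have h5 := hc.2 l hl l' hl'
        rw [h5]
        omega
      · rw [h3 n]
        exact h1
    · exact h1
  refine ⟨?_, ?_⟩
  · unfold facn
    exact Finset.prod_nonneg h0
  · unfold facn
    calc (∏ A ∈ L.powerset, if 2 ≤ A.card ∧ Par A then lam (sites A n) else 1)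
        ≤ ∏ A ∈ L.powerset, K0 := Finset.prod_le_prod h0 h2
      _ = K0 ^ (2 ^ k) := by rw [Finset.prod_const, Finset.card_powerset, hk]

end Pool.MP_92ef0c_nt.SI
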