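import Pool.Agent.Lib_MP_92ef0c_si.Value
import Pool.Agent.Lib_MP_92ef0c_si.LamL
import Pool.Agent.Lib_MP_92ef0c_sg.Bad
import Pool.Agent.Lib_MP_92ef0c_sg.ErLe

/-! # [SI-5] comparison of two sets -/

set_option autoImplicit false

namespace Pool.MP_92ef0c_nt.SI

open Finset
open Pool.MP_92ef0c_nt.PB (Pz V zz Rough rho)
open Pool.MP_92ef0c_nt.SH (EX ind rr gg Bd Prim IsD SSL Del Lam Exc Inter)
open Pool.MP_92ef0c_nt.SG (nbr kap wtG muG sites Par Er Wid Tst sg conv bilc FF Er_le bad_sum)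

/-- [SI-5] PROOF: `M = Nat.log 2 x + 1`. `ind P - ind P' = (ind P - f) - (ind P' - f') + (f - f')`, `f = wtG (kap lam w) ρ (sites L n)`, `f'`
similarly with `lam'`, `w'`. The first two sums: `Tst`, `Er_le`. For the third, `f, f' ∈ [0, 1]` (`Wid`), `f = f'` for `n ≥ n₀` not
exceptional (`value_eq` for both, `n₀` the maximum of the two constants for `R`, `lamL_same`); `bad_sum`; `n₀ + Del ≤ K log x`,
and `√(K log x E) ≤ K' √(log x log (x+i) E)` since `log (x + i) ≥ log 2`. -/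
theorem compare_gen (N₁ : ℕ) (lam lam' : Finset ℕ → ℝ)
    (w w' : ℕ → ℕ) (hw : Wid N₁ lam w) (hw' : Wid N₁ lam' w') (k R : ℕ) :
    ∃ K : ℝ, 0 < K ∧ ∀ (F : ℕ → ℕ → ℝ) (P P' : Set ℕ), Tst N₁ lam w F P → Tst N₁ lam' w' F P' →
      ∀ (x i : ℕ) (L : Finset (ℕ × ℕ)), 2 ≤ x → L.card = k →
        (∀ l ∈ L, 0 < l.1 ∧ l.1 ≤ x ∧ l.2 ≤ x) → Near lam R L → Near lam' R L →
        (∀ n, facn lam L n = facn lam' L n) →
        ∀ u v : ℕ, u ≤ v → v ≤ x →
          |∑ n ∈ Ioc u v, F i n * (ind P L n - ind P' L n)| ≤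
            K * √(Real.log x * Real.log ((x : ℝ) + i) * ∑ n ∈ Ioc u v, (F i n) ^ 2) := by
  obtain ⟨n1, hn1⟩ := hw.2.1 R
  obtain ⟨n2, hn2⟩ := hw'.2.1 R
  obtain ⟨K0, hK0, hEr⟩ := Er_le k
  set n₀ := max n1 n2 with hn₀
  refine ⟨2 * K0 + √(2 * (2 * (n₀ : ℝ) + K0)), by positivity, ?_⟩
  intro F P P' hP hP' x i L hx hk hL hN hN' hS u v huv hvx
  set M := Nat.log 2 x + 1 with hM
  set E := ∑ n ∈ Ioc u v, (F i n) ^ 2 with hE
  have hE0 : 0 ≤ E := sum_nonneg (fun n _ => sq_nonneg _)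
  have hx2 : x < 2 ^ M := Nat.lt_pow_succ_log_self (by norm_num) x
  have hBd : Bd M L := fun l hl => ⟨(hL l hl).1, (hL l hl).2.1.trans_lt hx2, (hL l hl).2.2.trans_lt hx2⟩
  have hvM : v < 2 ^ M := hvx.trans_lt hx2
  have huM : u < 2 ^ M := huv.trans_lt hvM
  have h1 := hP M i u v L hBd huM hvM
  have h2 := hP' M i u v L hBd huM hvM
  rw [← hE, hk] at h1 h2
  obtain ⟨e1, e2⟩ := hEr x i E hx hE0
  rw [← hM] at e1 e2
  have h3 := bad_sum L M n₀ u v (F i) (fun n => wtG (kap lam w) (rho N₁) (sites L n) -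
    wtG (kap lam' w') (rho N₁) (sites L n)) (by
      intro n
      obtain ⟨a1, a2⟩ := hw.2.2 (sites L n)
      obtain ⟨b1, b2⟩ := hw'.2.2 (sites L n)
      rw [abs_le]
      constructor <;> linarith) (by
      intro n hn hnv hexc
      have hnM : n < 2 ^ M := hnv.trans_lt hvM
      have v1 := value_eq N₁ lam w hw.1 R n₀ (fun m hm => hn1 m ((le_max_left _ _).trans hm)) M L
        hBd hN n hn hnM hexc
      have v2 := value_eq N₁ lam' w' hw'.1 R n₀ (fun m hm => hn2 m ((le_max_right _ _).trans hm))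
        M L hBd hN' n hn hnM hexc
      change wtG (kap lam w) (rho N₁) (sites L n) - wtG (kap lam' w') (rho N₁) (sites L n) = 0
      rw [v1, v2, hS n, sub_self])
  rw [← hE, hk] at h3
  have hx0 : (2 : ℝ) ≤ x := by exact_mod_cast hx
  have hi0 : (0 : ℝ) ≤ i := Nat.cast_nonneg _
  have hlog2 := Real.log_two_gt_d9
  have hlogx : Real.log 2 ≤ Real.log x := Real.log_le_log (by norm_num) hx0
  have hlogxi : Real.log 2 ≤ Real.log ((x : ℝ) + i) := Real.log_le_log (by norm_num) (by linarith)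
  have hn₀' : (0 : ℝ) ≤ n₀ := Nat.cast_nonneg _
  have hlx : 0 < Real.log x := by linarith
  have h4 : ((n₀ : ℝ) + Del k M) * E ≤ (2 * (2 * (n₀ : ℝ) + K0)) *
      (Real.log x * Real.log ((x : ℝ) + i) * E) := by
    have h5 : (n₀ : ℝ) + Del k M ≤ (2 * (n₀ : ℝ) + K0) * Real.log x := by nlinarith
    have h6 : (2 * (n₀ : ℝ) + K0) * Real.log x ≤ (2 * (n₀ : ℝ) + K0) * Real.log x *
        (2 * Real.log ((x : ℝ) + i)) := by
      apply le_mul_of_one_le_right (by positivity)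
      linarith
    calc ((n₀ : ℝ) + Del k M) * E ≤ ((2 * (n₀ : ℝ) + K0) * Real.log x *
        (2 * Real.log ((x : ℝ) + i))) * E := mul_le_mul_of_nonneg_right (h5.trans h6) hE0
      _ = _ := by ring
  have h7 : √(((n₀ : ℝ) + Del k M) * E) ≤ √(2 * (2 * (n₀ : ℝ) + K0)) *
      √(Real.log x * Real.log ((x : ℝ) + i) * E) := by
    rw [← Real.sqrt_mul (by positivity)]
    exact Real.sqrt_le_sqrt h4
  have hsum : ∑ n ∈ Ioc u v, F i n * (ind P L n - ind P' L n) =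
      ∑ n ∈ Ioc u v, F i n * (ind P L n - wtG (kap lam w) (rho N₁) (sites L n)) -
      ∑ n ∈ Ioc u v, F i n * (ind P' L n - wtG (kap lam' w') (rho N₁) (sites L n)) +
      ∑ n ∈ Ioc u v, F i n * (wtG (kap lam w) (rho N₁) (sites L n) -
        wtG (kap lam' w') (rho N₁) (sites L n)) := by
    rw [← Finset.sum_sub_distrib, ← Finset.sum_add_distrib]
    refine Finset.sum_congr rfl fun n _ => ?_
    ring
  rw [hsum]
  refine (abs_add_le _ _).trans ?_
  have h9 := abs_sub (∑ n ∈ Ioc u v, F i n * (ind P L n - wtG (kap lam w) (rho N₁) (sites L n)))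
    (∑ n ∈ Ioc u v, F i n * (ind P' L n - wtG (kap lam' w') (rho N₁) (sites L n)))
  have h10 : (2 * K0 + √(2 * (2 * (n₀ : ℝ) + K0))) * √(Real.log x * Real.log ((x : ℝ) + i) * E) =
      K0 * √(Real.log x * Real.log ((x : ℝ) + i) * E) +
      K0 * √(Real.log x * Real.log ((x : ℝ) + i) * E) +
      √(2 * (2 * (n₀ : ℝ) + K0)) * √(Real.log x * Real.log ((x : ℝ) + i) * E) := by ring
  rw [h10]
  linarith

end Pool.MP_92ef0c_nt.SI
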