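import Pool.Agent.Lib_MP_92ef0c_si.Comp
import Pool.Agent.Lib_MP_92ef0c_sg.Code

/-! # [SI-6a] comparison with the given weights -/

set_option autoImplicit false

namespace Pool.MP_92ef0c_nt.SI

open Finset
open Pool.MP_92ef0c_nt.PB (Pz V zz Rough rho)
open Pool.MP_92ef0c_nt.SH (EX ind rr gg Bd Prim IsD SSL Del Lam Exc Inter)
open Pool.MP_92ef0c_nt.SG (nbr kap wtG muG sites Par Er Wid Tst sg conv bilc FF FF_odd)

/-- [SI-6a] PROOF: `K` from `compare_gen` for `k`, `R`, the weights `FF F` and the index `2 i + 1` (`FF_odd`); `x + (2 i + 1) ≤ (x + i)^2`, so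
`log (x + (2 i + 1)) ≤ 2 log (x + i)`. -/
theorem compare_F (N₁ : ℕ) (lam lam' : Finset ℕ → ℝ)
    (w w' : ℕ → ℕ) (hw : Wid N₁ lam w) (hw' : Wid N₁ lam' w') (k R : ℕ) :
    ∃ K : ℝ, 0 < K ∧ ∀ (F : ℕ → ℕ → ℝ) (P P' : Set ℕ), Tst N₁ lam w (FF F) P →
      Tst N₁ lam' w' (FF F) P' →
      ∀ (x i : ℕ) (L : Finset (ℕ × ℕ)), 2 ≤ x → L.card = k →
        (∀ l ∈ L, 0 < l.1 ∧ l.1 ≤ x ∧ l.2 ≤ x) → Near lam R L → Near lam' R L →
        (∀ n, facn lam L n = facn lam' L n) →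
        ∀ u v : ℕ, u ≤ v → v ≤ x →
          |∑ n ∈ Ioc u v, F i n * (ind P L n - ind P' L n)| ≤
            K * √(Real.log x * Real.log ((x : ℝ) + i) * ∑ n ∈ Ioc u v, (F i n) ^ 2) := by
  obtain ⟨K, hK0, hK⟩ := compare_gen N₁ lam lam' w w' hw hw' k R
  refine ⟨2 * K, by positivity, ?_⟩
  intro F P P' hT hT' x i L hx hLk hL hn hn' hs u v huv hvx
  have h1 := hK (FF F) P P' hT hT' x (2 * i + 1) L hx hLk hL hn hn' hs u v huv hvx
  simp only [FF_odd] at h1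
  refine h1.trans ?_
  have hx' : (2 : ℝ) ≤ (x : ℝ) := by exact_mod_cast hx
  have hi : (0 : ℝ) ≤ (i : ℝ) := Nat.cast_nonneg i
  have hlx : 0 ≤ Real.log x := Real.log_nonneg (by linarith)
  have hlxi : 0 ≤ Real.log ((x : ℝ) + i) := Real.log_nonneg (by linarith)
  have hE : 0 ≤ ∑ n ∈ Ioc u v, (F i n) ^ 2 := Finset.sum_nonneg fun n _ => sq_nonneg _
  have h2 : Real.log ((x : ℝ) + ((2 * i + 1 : ℕ) : ℝ)) ≤ 2 * Real.log ((x : ℝ) + i) := by
    have h3 : (x : ℝ) + ((2 * i + 1 : ℕ) : ℝ) ≤ ((x : ℝ) + i) ^ 2 := by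
      push_cast
      nlinarith [mul_nonneg (sub_nonneg.2 hx') hi, mul_nonneg hi hi]
    have h4 : Real.log (((x : ℝ) + i) ^ 2) = 2 * Real.log ((x : ℝ) + i) := by
      rw [Real.log_pow]
      norm_num
    rw [← h4]
    exact Real.log_le_log (by positivity) h3
  have h5 : √(Real.log x * Real.log ((x : ℝ) + ((2 * i + 1 : ℕ) : ℝ)) * ∑ n ∈ Ioc u v, (F i n) ^ 2) ≤
      2 * √(Real.log x * Real.log ((x : ℝ) + i) * ∑ n ∈ Ioc u v, (F i n) ^ 2) := by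
    rw [Real.sqrt_le_left (by positivity), mul_pow, Real.sq_sqrt (by positivity)]
    have h6 : Real.log x * Real.log ((x : ℝ) + ((2 * i + 1 : ℕ) : ℝ)) * ∑ n ∈ Ioc u v, (F i n) ^ 2 ≤
        Real.log x * (2 * Real.log ((x : ℝ) + i)) * ∑ n ∈ Ioc u v, (F i n) ^ 2 :=
      mul_le_mul_of_nonneg_right (mul_le_mul_of_nonneg_left h2 hlx) hE
    have h7 : 0 ≤ Real.log x * Real.log ((x : ℝ) + i) * ∑ n ∈ Ioc u v, (F i n) ^ 2 := by positivity
    linarith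
  have h8 := mul_le_mul_of_nonneg_left h5 hK0.le
  linarith

end Pool.MP_92ef0c_nt.SI
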