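import Pool.Agent.Lib_MP_92ef0c_sg.Defs

/-!
# MP_92ef0c_nt, independence of all constants, inhomogeneous version: definitions

As `Lib_MP_92ef0c_sg`, but the factors `lam A` are no longer assumed to be translation invariant, only bounded
on the sets of bounded diameter.
-/

set_option autoImplicit false

namespace Pool.MP_92ef0c_nt.SI

open Finset
open Pool.MP_92ef0c_nt.SG (sites Par)

noncomputable section

open Classical in
/-- product of the factors of the sets of values at `n` of at least two forms of `L` with the same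
leading coefficient -/
def facn (lam : Finset ℕ → ℝ) (L : Finset (ℕ × ℕ)) (n : ℕ) : ℝ :=
  ∏ A ∈ L.powerset, if 2 ≤ A.card ∧ Par A then lam (sites A n) else 1

/-- every set of at least two forms of `L` with the same leading coefficient has diameter at most `R` or
factor `1` at all `n` -/
def Near (lam : Finset ℕ → ℝ) (R : ℕ) (L : Finset (ℕ × ℕ)) : Prop :=
  ∀ A ⊆ L, 2 ≤ A.card → Par A →
    (∀ l ∈ A, ∀ l' ∈ A, l.2 ≤ l'.2 + R) ∨ ∀ n, lam (sites A n) = 1

/-- nonnegative and bounded on the sets of diameter at most `j`, for every `j` -/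
def Adm (lam : Finset ℕ → ℝ) : Prop :=
  (∀ A, 0 ≤ lam A) ∧
    ∀ j : ℕ, ∃ b : ℝ, ∀ A : Finset ℕ, (∀ s ∈ A, ∀ t ∈ A, t ≤ s + j) → lam A ≤ b

/-- the frozen form of Q1 for the pairs `n, n + e` in `P`, restricted to the moduli `q` divisible by `r` and
the classes `a ≡ c` modulo `r`, with the main term multiplied by `t` -/
def PQR (P : Set ℕ) (e r c : ℕ) (t : ℝ) : Prop :=
  ∀ B C : ℝ, 0 ≤ B → 0 ≤ C →
    ∃ K : ℝ, ∃ x0 : ℝ, ∀ x : ℝ, x0 ≤ x → ∀ q a : ℕ, 0 < q → r ∣ q → a ≡ c [MOD r] →
      (q : ℝ) ≤ (Real.log x) ^ B →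
      Nat.Coprime a q → Nat.Coprime (a + e) q →
      |(open Classical in (((Finset.range (⌊x⌋₊ + 1)).filter
            (fun n => n ∈ P ∧ n + e ∈ P ∧ n ≡ a [MOD q])).card : ℝ))
        - t * (2 / (((Finset.range q).filter
              (fun A => Nat.Coprime A q ∧ Nat.Coprime (A + e) q)).card : ℝ)
          * (∏ p ∈ e.primeFactors.filter (fun p => 2 < p),
              (((p : ℝ) - 1) / ((p : ℝ) - 2)))
          * (∏' p : {p : ℕ // p.Prime ∧ 2 < p}, (1 - 1 / (((p : ℕ) : ℝ) - 1) ^ 2))
          * (∫ t in (2 : ℝ)..x, 1 / (Real.log t) ^ 2))|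
        ≤ K * x / (Real.log x) ^ C

end

end Pool.MP_92ef0c_nt.SI
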