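import Pool.Agent.Lib_MP_92ef0c_si.Defs
import Pool.Agent.Lib_MP_92ef0c_sh.Cut

/-! # [SI-D] the quantitative Dickson statement -/

set_option autoImplicit false

namespace Pool.MP_92ef0c_nt.SI

open Finset
open Pool.MP_92ef0c_nt.PB (Pz V zz Rough rho)
open Pool.MP_92ef0c_nt.SH (EX ind rr gg Bd Prim IsD SSL Del Lam Exc Inter main_det SSL_exists)

private theorem exp_aux (ε c ℓ : ℝ) (hε : 0 < ε) (hc : 0 ≤ c) (hcε : c ≤ ε / 4) (hℓ : 0 ≤ ℓ) :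
    (1 + ℓ) * Real.exp (-(ε * ℓ / 2)) ≤ (1 + 4 / ε) * Real.exp (ε / 4) * Real.exp (-(c * √ℓ)) := by
  have h1 : √ℓ ≤ 1 + ℓ := by
    rw [Real.sqrt_le_left (by linarith)]
    nlinarith
  have h2 : c * √ℓ ≤ ε / 4 * (1 + ℓ) := mul_le_mul hcε h1 (Real.sqrt_nonneg _) (by linarith)
  have h3 : Real.exp (-(ε / 4 * (1 + ℓ))) ≤ Real.exp (-(c * √ℓ)) :=
    Real.exp_le_exp.2 (by linarith)
  have h4 : (1 + ℓ) * Real.exp (-(ε * ℓ / 4)) ≤ 1 + 4 / ε := by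
    have e1 : Real.exp (-(ε * ℓ / 4)) ≤ 1 := Real.exp_le_one_iff.2 (by nlinarith)
    have e2 : ε * ℓ / 4 ≤ Real.exp (ε * ℓ / 4) := by
      have := Real.add_one_le_exp (ε * ℓ / 4)
      linarith
    have e3 : ℓ * Real.exp (-(ε * ℓ / 4)) ≤ 4 / ε := by
      rw [Real.exp_neg, ← div_eq_mul_inv, div_le_div_iff₀ (Real.exp_pos _) hε]
      nlinarith
    nlinarith
  have h5 : Real.exp (-(ε * ℓ / 2)) =
      Real.exp (-(ε * ℓ / 4)) * (Real.exp (ε / 4) * Real.exp (-(ε / 4 * (1 + ℓ)))) := by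
    rw [← Real.exp_add, ← Real.exp_add]
    ring_nf
  have hε4 : 0 < 4 / ε := by positivity
  calc (1 + ℓ) * Real.exp (-(ε * ℓ / 2))
      = ((1 + ℓ) * Real.exp (-(ε * ℓ / 4))) * (Real.exp (ε / 4) * Real.exp (-(ε / 4 * (1 + ℓ)))) := by
        rw [h5]; ring
    _ ≤ (1 + 4 / ε) * (Real.exp (ε / 4) * Real.exp (-(c * √ℓ))) := by gcongr
    _ = _ := by ring

private theorem ind_le (P : Set ℕ) (L : Finset (ℕ × ℕ)) (n : ℕ) : |ind P L n| ≤ 1 := by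
  classical
  unfold ind
  split_ifs <;> simp

/-- [SI-D] as `dickson_gen` of `Lib_MP_92ef0c_sg/Dick.lean` -/
theorem dickson_gen (N₁ : ℕ) (hρ : ∀ n, 0 ≤ rho N₁ n ∧ rho N₁ n ≤ 1 / 4) 
    (P : Set ℕ) (k : ℕ) (K₁ : ℝ) (G : Finset (ℕ × ℕ) → ℝ → Prop)
    (hP : ∀ (M : ℕ) (L : Finset (ℕ × ℕ)) (m : ℝ), L.card = k → Bd M L → G L m →
        ∀ u v : ℕ, u ≤ v → v < 2 ^ M →
          |∑ n ∈ Ioc u v, (ind P L n - m * rr N₁ L n)| ≤
            K₁ * ((M : ℝ) + 1) * (√((v : ℝ) - u) + 1))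
    (hK : ∀ (L : Finset (ℕ × ℕ)) (m : ℝ), L.card = k → G L m → 0 ≤ m ∧ m ≤ K₁)
    (ε : ℝ) (hε : 0 < ε) : ∃ c K : ℝ, 0 < c ∧ 0 < K ∧ ∀ (x : ℕ) (L : Finset (ℕ × ℕ)) (m : ℝ),
      2 ≤ x → L.card = k → Prim L → (∀ l ∈ L, l.1 ≤ x ∧ l.2 ≤ x) → G L m →
      ∀ u v : ℕ, u ≤ v → v ≤ x → (x : ℝ) ^ ε ≤ (v : ℝ) - u → ∃ S : ℝ, IsD L S ∧
        |∑ n ∈ Ioc u v, ind P L n - m * S * ∑ n ∈ Ioc (max u 1) v, gg L n| ≤
          K * ((v : ℝ) - u) * Real.exp (-(c * √(Real.log x))) := by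
  classical
  obtain ⟨c₀, K₀, hc₀, hK₀, hmd⟩ := main_det N₁ k hρ (ε / 2) (by linarith)
  set c : ℝ := min c₀ (ε / 4) with hc
  have hcp : 0 < c := lt_min hc₀ (by linarith)
  set K₂ : ℝ := |K₁| with hK₂
  have hK₂0 : 0 ≤ K₂ := abs_nonneg _
  set B : ℝ := 1 + 4 * K₂ + K₂ * (K₀ * (2 : ℝ) ^ (ε / 2)) with hB
  have h2ε : 0 < (2 : ℝ) ^ (ε / 2) := Real.rpow_pos_of_pos two_pos _
  have hBp : 0 < B := by positivity
  refine ⟨c, B * ((1 + 4 / ε) * Real.exp (ε / 4)) + K₂ * K₀, hcp, by positivity, ?_⟩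
  intro x L m hx hL hprim hLx hgood u v huv hvx hxε
  obtain ⟨hm0, hmK⟩ := hK L m hL hgood
  have hK₁0 : 0 ≤ K₁ := hm0.trans hmK
  have hK₂e : K₂ = K₁ := abs_of_nonneg hK₁0
  rw [← hK₂e] at hmK
  obtain ⟨S, hS⟩ := SSL_exists L hprim
  refine ⟨S, hS, ?_⟩
  have hx0 : (0 : ℝ) < x := by exact_mod_cast (by omega : 0 < x)
  have hx1 : (1 : ℝ) ≤ x := by exact_mod_cast (by omega : 1 ≤ x)
  set y : ℝ := (v : ℝ) - u with hy
  have hxε1 : 1 ≤ (x : ℝ) ^ ε := Real.one_le_rpow hx1 hε.le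
  have hy1 : 1 ≤ y := hxε1.trans hxε
  have huv' : u < v := by
    have : (u : ℝ) < v := by linarith
    exact_mod_cast this
  set J : ℕ := Nat.log 2 x + 1 with hJ
  have hxJ : x < 2 ^ J := Nat.lt_pow_succ_log_self (by norm_num) x
  have hJx : (2 : ℝ) ^ J ≤ 2 * x := by
    have : 2 ^ Nat.log 2 x ≤ x := Nat.pow_log_le_self 2 (by omega)
    have h' : ((2 : ℝ) ^ Nat.log 2 x) ≤ x := by exact_mod_cast this
    rw [hJ, pow_succ]
    linarith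
  have hBd : Bd J L := fun l hl => ⟨(hprim l hl).1, lt_of_le_of_lt (hLx l hl).1 hxJ,
    lt_of_le_of_lt (hLx l hl).2 hxJ⟩
  set ℓ : ℝ := Real.log x with hℓ
  have hℓ0 : 0 ≤ ℓ := Real.log_nonneg hx1
  have hJℓ : ℓ ≤ J := by
    have h1 : (x : ℝ) < 2 ^ J := by exact_mod_cast hxJ
    have h2 : ℓ ≤ J * Real.log 2 := by
      rw [← Real.log_pow]
      exact Real.log_le_log hx0 h1.le
    have h3 : Real.log 2 ≤ 1 := by
      have := Real.log_two_lt_d9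
      linarith
    have h4 : (0 : ℝ) ≤ J := Nat.cast_nonneg _
    nlinarith
  have hJu : (J : ℝ) + 1 ≤ 2 * (1 + ℓ) := by
    have h1 : ((2 : ℝ) ^ Nat.log 2 x) ≤ x := by
      exact_mod_cast Nat.pow_log_le_self 2 (by omega : x ≠ 0)
    have h2 : (Nat.log 2 x : ℝ) * Real.log 2 ≤ ℓ := by
      rw [← Real.log_pow]
      exact Real.log_le_log (by positivity) h1
    have h3 : (1 / 2 : ℝ) ≤ Real.log 2 := by
      have := Real.log_two_gt_d9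
      linarith
    have h4 : (0 : ℝ) ≤ (Nat.log 2 x : ℝ) := Nat.cast_nonneg _
    have h5 : (J : ℝ) = (Nat.log 2 x : ℝ) + 1 := by rw [hJ]; push_cast; ring
    rw [h5]
    nlinarith
  -- powers of `x`
  set ρ : ℝ := Real.exp (-(ε * ℓ / 2)) with hρd
  have hρp : 0 < ρ := Real.exp_pos _
  have hsq : ((x : ℝ) ^ (ε / 2)) * ((x : ℝ) ^ (ε / 2)) = (x : ℝ) ^ ε := by
    rw [← Real.rpow_add hx0]; ring_nf
  have hxh : (x : ℝ) ^ (ε / 2) = ρ⁻¹ := by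
    rw [hρd, ← Real.exp_neg, Real.rpow_def_of_pos hx0, ← hℓ, neg_neg]
    ring_nf
  have hyρ : ρ⁻¹ ≤ y * ρ := by
    have h1 : ρ⁻¹ * ρ⁻¹ ≤ y := by rw [← hxh, hsq]; exact hxε
    calc ρ⁻¹ = (ρ⁻¹ * ρ⁻¹) * ρ := by field_simp
      _ ≤ y * ρ := by gcongr
  have hρ1 : 1 ≤ ρ⁻¹ := by
    rw [← hxh]; exact Real.one_le_rpow hx1 (by linarith)
  have hsy : √y ≤ y * ρ := by
    have h1 : ρ⁻¹ ≤ √y := by
      rw [Real.le_sqrt (by positivity) (by linarith), ← hxh, pow_two, hsq]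
      exact hxε
    have h2 : 1 ≤ √y * ρ := by
      calc (1 : ℝ) = ρ⁻¹ * ρ := by field_simp
        _ ≤ √y * ρ := by gcongr
    calc √y = √y * 1 := (mul_one _).symm
      _ ≤ √y * (√y * ρ) := by gcongr
      _ = (√y * √y) * ρ := by ring
      _ = y * ρ := by rw [Real.mul_self_sqrt (by linarith)]
  have h2J : (2 : ℝ) ^ (ε / 2 * J) ≤ (2 : ℝ) ^ (ε / 2) * (y * ρ) := by
    calc (2 : ℝ) ^ (ε / 2 * J) = ((2 : ℝ) ^ J) ^ (ε / 2) := by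
          rw [mul_comm, Real.rpow_mul (by norm_num), Real.rpow_natCast]
      _ ≤ (2 * x) ^ (ε / 2) := Real.rpow_le_rpow (by positivity) hJx (by linarith)
      _ = (2 : ℝ) ^ (ε / 2) * (x : ℝ) ^ (ε / 2) := Real.mul_rpow (by norm_num) hx0.le
      _ ≤ (2 : ℝ) ^ (ε / 2) * (y * ρ) := by
          rw [hxh]
          gcongr
  -- the sums
  set u' : ℕ := max u 1 with hu'
  have hu'v : u' ≤ v := max_le huv (by omega)
  have hvJ : v < 2 ^ J := lt_of_le_of_lt hvx hxJ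
  have hu'J : u' < 2 ^ J := lt_of_le_of_lt hu'v hvJ
  have huu' : (u : ℝ) ≤ u' := by exact_mod_cast le_max_left u 1
  have hyy : (v : ℝ) - u' ≤ y := by linarith
  have hyy0 : 0 ≤ (v : ℝ) - u' := by
    have : (u' : ℝ) ≤ v := by exact_mod_cast hu'v
    linarith
  have s1 : |∑ n ∈ Ioc u v, ind P L n - ∑ n ∈ Ioc u' v, ind P L n| ≤ 1 := by
    rcases Nat.eq_zero_or_pos u with h0 | h0
    · have e1 : Ioc u v = insert 1 (Ioc u' v) := by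
        ext m
        simp only [mem_Ioc, mem_insert, hu', h0]
        omega
      have e2 : (1 : ℕ) ∉ Ioc u' v := by
        simp only [mem_Ioc, hu', h0]
        omega
      rw [e1, sum_insert e2, add_sub_cancel_right]
      exact ind_le P L 1
    · have e1 : u' = u := by rw [hu']; omega
      rw [e1, sub_self, abs_zero]
      exact zero_le_one
  have s2 := hP J L m hL hBd hgood u' v hu'v hvJ
  have s3 := hmd J L hL.le hprim hBd S hS u' v (le_max_right _ _) hu'v hvJ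
  rw [← hK₂e] at s2
  have s2' : K₂ * ((J : ℝ) + 1) * (√((v : ℝ) - u') + 1) ≤ 4 * K₂ * (1 + ℓ) * (y * ρ) := by
    have h1 : √((v : ℝ) - u') + 1 ≤ 2 * (y * ρ) := by
      have h2 : √((v : ℝ) - u') ≤ √y := Real.sqrt_le_sqrt hyy
      have h3 : 1 ≤ y * ρ := hρ1.trans hyρ
      linarith
    calc K₂ * ((J : ℝ) + 1) * (√((v : ℝ) - u') + 1)
        ≤ K₂ * (2 * (1 + ℓ)) * (2 * (y * ρ)) := by gcongr
      _ = _ := by ring
  have s3' : K₀ * (((v : ℝ) - u') * Real.exp (-(c₀ * √J)) + (2 : ℝ) ^ (ε / 2 * J)) ≤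
      K₀ * (y * Real.exp (-(c * √ℓ))) + K₀ * (2 : ℝ) ^ (ε / 2) * (1 + ℓ) * (y * ρ) := by
    have h1 : Real.exp (-(c₀ * √J)) ≤ Real.exp (-(c * √ℓ)) := by
      refine Real.exp_le_exp.2 (neg_le_neg ?_)
      exact mul_le_mul (min_le_left _ _) (Real.sqrt_le_sqrt hJℓ) (Real.sqrt_nonneg _) hc₀.le
    have h2 : (2 : ℝ) ^ (ε / 2) * (y * ρ) ≤ (2 : ℝ) ^ (ε / 2) * (1 + ℓ) * (y * ρ) := by
      have h3 : 0 ≤ (2 : ℝ) ^ (ε / 2) * (y * ρ) := by positivity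
      nlinarith
    calc K₀ * (((v : ℝ) - u') * Real.exp (-(c₀ * √J)) + (2 : ℝ) ^ (ε / 2 * J))
        ≤ K₀ * (y * Real.exp (-(c * √ℓ)) + (2 : ℝ) ^ (ε / 2) * (1 + ℓ) * (y * ρ)) := by
          gcongr
          exact h2J.trans h2
      _ = _ := by ring
  have s1' : (1 : ℝ) ≤ 1 * (1 + ℓ) * (y * ρ) := by
    have h3 : 1 ≤ y * ρ := hρ1.trans hyρ
    nlinarith
  have s3'' : |m * ∑ n ∈ Ioc u' v, (rr N₁ L n - S * gg L n)| ≤
      K₂ * (K₀ * (y * Real.exp (-(c * √ℓ))) + K₀ * (2 : ℝ) ^ (ε / 2) * (1 + ℓ) * (y * ρ)) := by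
    rw [abs_mul, abs_of_nonneg hm0]
    exact mul_le_mul hmK (s3.trans s3') (abs_nonneg _) hK₂0
  have hdec : ∑ n ∈ Ioc u v, ind P L n - m * S * ∑ n ∈ Ioc u' v, gg L n =
      (∑ n ∈ Ioc u v, ind P L n - ∑ n ∈ Ioc u' v, ind P L n) +
      ∑ n ∈ Ioc u' v, (ind P L n - m * rr N₁ L n) +
      m * ∑ n ∈ Ioc u' v, (rr N₁ L n - S * gg L n) := by
    rw [sum_sub_distrib, sum_sub_distrib, ← mul_sum, ← mul_sum]
    ring
  rw [hdec]
  have hexp := exp_aux ε c ℓ hε hcp.le (min_le_right _ _) hℓ0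
  calc _ ≤ |∑ n ∈ Ioc u v, ind P L n - ∑ n ∈ Ioc u' v, ind P L n| +
        |∑ n ∈ Ioc u' v, (ind P L n - m * rr N₁ L n)| +
        |m * ∑ n ∈ Ioc u' v, (rr N₁ L n - S * gg L n)| := abs_add_three _ _ _
    _ ≤ 1 * (1 + ℓ) * (y * ρ) + 4 * K₂ * (1 + ℓ) * (y * ρ) +
        K₂ * (K₀ * (y * Real.exp (-(c * √ℓ))) +
          K₀ * (2 : ℝ) ^ (ε / 2) * (1 + ℓ) * (y * ρ)) := by
          gcongr
          · exact s1.trans s1'
          · exact s2.trans s2'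
    _ = y * (B * ((1 + ℓ) * ρ)) + y * (K₂ * K₀ * Real.exp (-(c * √ℓ))) := by rw [hB]; ring
    _ ≤ y * (B * ((1 + 4 / ε) * Real.exp (ε / 4) * Real.exp (-(c * √ℓ)))) +
        y * (K₂ * K₀ * Real.exp (-(c * √ℓ))) := by gcongr
    _ = _ := by ring


end Pool.MP_92ef0c_nt.SI
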