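import Pool.Agent.Lib_MP_92ef0c_sg.Mob
import Pool.Agent.Lib_MP_92ef0c_sg.Pos
import Pool.Agent.Lib_MP_92ef0c_sg.Wide
import Pool.Agent.Lib_MP_92ef0c_si.Act

/-! # [SI-K1] the width and the measure -/

set_option autoImplicit false

namespace Pool.MP_92ef0c_nt.SI

open Finset
open Pool.MP_92ef0c_nt.PB (Pz V zz Rough rho)
open Pool.MP_92ef0c_nt.SG (nbr kap wtG muG Wid width muG_nonneg f_bounds)

/-- [SI-K1] -/
theorem exists_width (N₁ : ℕ) (hρ : ∀ n, 0 ≤ rho N₁ n ∧ rho N₁ n ≤ 1 / 4) (lam : Finset ℕ → ℝ)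
    (hlam : Adm lam) :
    ∃ w : ℕ → ℕ, Wid N₁ lam w ∧
      ∀ U S : Finset ℕ, S ⊆ U → 0 ≤ muG U (wtG (kap lam w) (rho N₁)) S := by
  obtain ⟨hl0, hlb⟩ := hlam
  choose b hb using hlb
  obtain ⟨bb, hbb⟩ : ∃ bb : ℕ → ℝ, ∀ j, bb j = 1 + ∑ i ∈ range (j + 1), |b i| := ⟨_, fun _ => rfl⟩
  have hbb1 : ∀ j, 1 ≤ bb j := by
    intro j
    rw [hbb]
    exact le_add_of_nonneg_right (sum_nonneg fun i _ => abs_nonneg _)
  have hbbm : ∀ j k, j ≤ k → bb j ≤ bb k := by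
    intro j k hjk
    rw [hbb, hbb]
    have := sum_le_sum_of_subset_of_nonneg (f := fun i => |b i|)
      (Finset.range_mono (show j + 1 ≤ k + 1 by omega)) (fun i _ _ => abs_nonneg _)
    linarith
  have hbbd : ∀ (j : ℕ) (A : Finset ℕ), (∀ s ∈ A, ∀ t ∈ A, t ≤ s + j) → lam A ≤ bb j := by
    intro j A hA
    have h1 := hb j A hA
    have h2 := le_abs_self (b j)
    have h3 := single_le_sum (f := fun i => |b i|) (fun i _ => abs_nonneg _)
      (mem_range.2 (Nat.lt_succ_self j))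
    rw [hbb]
    linarith
  obtain ⟨Q, hQd⟩ : ∃ Q : ℕ → ℝ, ∀ j, Q j = (bb j) ^ (j * 4 ^ j) := ⟨_, fun _ => rfl⟩
  have hQ : ∀ j, 1 ≤ Q j := fun j => by rw [hQd]; exact one_le_pow₀ (hbb1 j)
  have hQm : Monotone Q := by
    intro j k hjk
    rw [hQd, hQd]
    calc (bb j) ^ (j * 4 ^ j) ≤ (bb k) ^ (j * 4 ^ j) :=
          pow_le_pow_left₀ (zero_le_one.trans (hbb1 j)) (hbbm j k hjk) _
      _ ≤ (bb k) ^ (k * 4 ^ k) := pow_le_pow_right₀ (hbb1 k)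
          (Nat.mul_le_mul hjk (Nat.pow_le_pow_right (by norm_num) hjk))
  have hQ0 : Q 0 = 1 := by rw [hQd]; simp
  obtain ⟨w, hmono, hlog, hR, ha, hN⟩ := width N₁ hρ Q hQ hQm hQ0
  have hκ : ∀ A, 0 ≤ kap lam w A := by
    intro A
    unfold kap
    split_ifs
    · exact hl0 A
    · exact zero_le_one
  have h1 : ∀ A : Finset ℕ, A.card ≤ 1 → kap lam w A = 1 := by
    intro A hA
    unfold kap
    rw [if_neg]
    rintro ⟨h, _⟩
    omega
  have hloc : ∀ A : Finset ℕ, ∀ s ∈ A, ∀ t ∈ A, ¬ nbr w s t → kap lam w A = 1 := by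
    intro A s hs t ht h
    unfold kap
    rw [if_neg]
    rintro ⟨_, h2⟩
    exact h (h2 s hs t ht)
  have hpos : ∀ U S : Finset ℕ, S ⊆ U → 0 ≤ muG U (wtG (kap lam w) (rho N₁)) S := fun U S hS =>
    muG_nonneg (nbr w) (fun s t h => h.symm) (kap lam w) (rho N₁) (fun v => rho N₁ v * Q (w (2 * v)))
      hκ h1 hloc (fun n => (hρ n).1) ha
      (fun v S hv => mul_le_mul_of_nonneg_left
        ((act_le lam hl0 bb hbb1 hbbd w hmono hlog v S hv).trans (le_of_eq (hQd _).symm)) (hρ v).1)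
      hN U S hS
  have h0 : wtG (kap lam w) (rho N₁) ∅ = 1 := by
    unfold wtG
    rw [Finset.prod_empty, Finset.powerset_empty, Finset.prod_singleton, one_mul]
    exact h1 ∅ (by simp)
  exact ⟨w, ⟨hlog, hR, f_bounds _ h0 hpos⟩, hpos⟩

end Pool.MP_92ef0c_nt.SI
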