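import Pool.Agent.Lib_MP_92ef0c_si.Defs

/-! # [SI-3] finitely many translates of a forbidden pattern -/

set_option autoImplicit false

namespace Pool.MP_92ef0c_nt.SI

open Finset
open Pool.MP_92ef0c_nt.SG (nbr kap)

/-- [SI-3] as `fin_pattern` of `Lib_MP_92ef0c_sg/FinP.lean` -/
theorem fin_pattern (lam : Finset ℕ → ℝ)
    (w : ℕ → ℕ) (hw : ∀ R, ∃ n₀, ∀ n, n₀ ≤ n → R ≤ w n) (P : Set ℕ)
    (hP : ∀ A : Finset ℕ, (∀ a ∈ A, a ∈ P) → kap lam w A ≠ 0) (A : Finset ℕ)
    (hA : 2 ≤ A.card) :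
    {n : ℕ | (∀ a ∈ A, a + n ∈ P) ∧ lam (A.image (fun a => a + n)) = 0}.Finite := by
  classical
  obtain ⟨n₀, hn₀⟩ := hw (A.sup id)
  refine (Set.finite_lt_nat n₀).subset ?_
  intro n hn
  obtain ⟨hn, h0⟩ : (∀ a ∈ A, a + n ∈ P) ∧ lam (A.image (fun a => a + n)) = 0 := hn
  show n < n₀
  by_contra hlt
  push Not at hlt
  have hle : ∀ a ∈ A, a ≤ A.sup id := fun a ha => Finset.le_sup (f := id) ha
  refine hP (A.image (fun a => a + n)) ?_ ?_
  · intro b hb
    obtain ⟨a, ha, rfl⟩ := Finset.mem_image.1 hb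
    exact hn a ha
  · unfold kap
    rw [if_pos]
    · exact h0
    · refine ⟨?_, ?_⟩
      · rw [Finset.card_image_of_injective _ (add_left_injective n)]
        exact hA
      · intro s hs t ht
        obtain ⟨a, ha, rfl⟩ := Finset.mem_image.1 hs
        obtain ⟨b, hb, rfl⟩ := Finset.mem_image.1 ht
        have h1 := hn₀ (a + n) (by omega)
        have h2 := hn₀ (b + n) (by omega)
        have h3 := hle a ha
        have h4 := hle b hb
        constructor
        · show a + n ≤ b + n + w (a + n)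
          omega
        · show b + n ≤ a + n + w (b + n)
          omega

end Pool.MP_92ef0c_nt.SI
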