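import Pool.Agent.Lib_MP_92ef0c_si.Value
import Pool.Agent.Lib_MP_92ef0c_si.LamL
import Pool.Agent.Lib_MP_92ef0c_sg.Bad
import Pool.Agent.Lib_MP_92ef0c_sg.ErLe

/-! # [SI-T] the correlations of one set -/

set_option autoImplicit false

namespace Pool.MP_92ef0c_nt.SI

open Finset
open Pool.MP_92ef0c_nt.PB (Pz V zz Rough rho)
open Pool.MP_92ef0c_nt.SH (EX ind rr gg Bd Prim IsD SSL Del Lam Exc Inter)
open Pool.MP_92ef0c_nt.SG (nbr kap wtG muG sites Par Er Wid Tst sg conv bilc FF Er_le bad_sum)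

private theorem rr_mem_mainB (N₁ : ℕ) (hρ : ∀ n, 0 ≤ rho N₁ n ∧ rho N₁ n ≤ 1 / 4)
    (L : Finset (ℕ × ℕ)) (n : ℕ) : 0 ≤ rr N₁ L n ∧ rr N₁ L n ≤ 1 := by
  unfold SH.rr
  constructor
  · exact prod_nonneg fun l _ => (hρ _).1
  · exact prod_le_one (fun l _ => (hρ _).1) fun l _ => (hρ _).2.trans (by norm_num)

private theorem bad_card_mainB (L : Finset (ℕ × ℕ)) (M n₀ u v : ℕ) :
    (open Classical in ((Ioc u v).filter (fun n => ¬ (n₀ ≤ n ∧ ¬ Exc L (2 * M + 1) n))).card) ≤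
      n₀ + Del L.card M := by
  classical
  have h1 : (Ioc u v).filter (fun n => ¬ (n₀ ≤ n ∧ ¬ Exc L (2 * M + 1) n)) ⊆
      range n₀ ∪ (Ioc u v).filter (fun n => Exc L (2 * M + 1) n) := by
    intro n hn
    rw [mem_filter] at hn
    rw [mem_union, mem_range, mem_filter]
    obtain ⟨h1, h2⟩ := hn
    by_cases h3 : n < n₀
    · exact Or.inl h3
    · right
      refine ⟨h1, ?_⟩
      by_contra h4
      exact h2 ⟨not_lt.1 h3, h4⟩
  have h2 := SH.exc_card L (2 * M + 1) (Ioc u v)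
  calc _ ≤ (range n₀ ∪ (Ioc u v).filter (fun n => Exc L (2 * M + 1) n)).card := card_le_card h1
    _ ≤ (range n₀).card + ((Ioc u v).filter (fun n => Exc L (2 * M + 1) n)).card :=
        card_union_le _ _
    _ ≤ n₀ + L.card ^ 2 * (2 * (2 * M + 1) + 1) := by
        rw [card_range]
        exact Nat.add_le_add_left (le_of_eq_of_le (by congr) h2) _
    _ = n₀ + Del L.card M := by
        unfold SH.Del
        congr 2
        ring

/-- [SI-T] PROOF: `ind P - lamL rr = (ind P - f) + (f - lamL rr)`, `f = wtG (kap lam w) ρ (sites L n)`. First sum: `Tst` with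
`i = 0`, `F 0 = 1`: `√(8 (Del + 1) (Lam + 2 log 2) (v - u)) ≤ K (M + 1) √(v - u)`. Second sum: the terms vanish
for `n ≥ n₀` not exceptional (`value_eq`), there are at most `n₀ + Del k M ≤ K (M + 1)` others (`bad_sum` with `F = 1` would give
only a square root; take absolute values directly, or `bad_sum` with `F` the indicator of the bad set; or
`exc_card`), each at most `1 + K₀` (`Wid`, `lamL_bound`, `0 ≤ rr ≤ 1`). -/
theorem main_bound (N₁ : ℕ) (hρ : ∀ n, 0 ≤ rho N₁ n ∧ rho N₁ n ≤ 1 / 4) (lam : Finset ℕ → ℝ)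
    (hlam : Adm lam)
    (w : ℕ → ℕ) (hw : Wid N₁ lam w) (k R : ℕ) :
    ∃ K : ℝ, 0 < K ∧ ∀ (F : ℕ → ℕ → ℝ) (P : Set ℕ), (∀ n, F 0 n = 1) → Tst N₁ lam w F P →
      ∀ (M : ℕ) (L : Finset (ℕ × ℕ)) (m : ℝ), L.card = k → Bd M L → Near lam R L →
        (∀ n, facn lam L n = m) →
        ∀ u v : ℕ, u ≤ v → v < 2 ^ M →
          |∑ n ∈ Ioc u v, (ind P L n - m * rr N₁ L n)| ≤
            K * ((M : ℝ) + 1) * (√((v : ℝ) - u) + 1) := by
  classical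
  obtain ⟨hw1, hw2, hw3⟩ := hw
  obtain ⟨n₀, hn₀⟩ := hw2 R
  obtain ⟨K₀, hK₀, hlamL⟩ := facn_bound lam hlam k R
  obtain ⟨c₁, hc₁⟩ : ∃ c : ℝ, c = 4 * (k : ℝ) ^ 2 + 1 := ⟨_, rfl⟩
  obtain ⟨c₂, hc₂⟩ : ∃ c : ℝ, c = 4 * (k : ℝ) ^ 2 + 3 * k + 7 := ⟨_, rfl⟩
  have hk0 : (0 : ℝ) ≤ k := Nat.cast_nonneg k
  have hn00 : (0 : ℝ) ≤ n₀ := Nat.cast_nonneg n₀
  have hc₁0 : 0 ≤ c₁ := by rw [hc₁]; positivity
  have hc₂0 : 0 ≤ c₂ := by rw [hc₂]; positivity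
  obtain ⟨B, hB⟩ : ∃ B : ℝ, B = ((n₀ : ℝ) + 4 * (k : ℝ) ^ 2) * (1 + K₀) := ⟨_, rfl⟩
  have hB0 : 0 ≤ B := by rw [hB]; positivity
  refine ⟨√(8 * c₁ * c₂) + B + 1, by positivity, ?_⟩
  intro F P hF hT M L m hk hBd hN hm u v huv hv
  have hM0 : (0 : ℝ) ≤ M := Nat.cast_nonneg M
  have hvu : (0 : ℝ) ≤ (v : ℝ) - u := by
    have : (u : ℝ) ≤ v := by exact_mod_cast huv
    linarith
  obtain ⟨f, hf⟩ : ∃ f : ℕ → ℝ, ∀ n, f n = wtG (kap lam w) (rho N₁) (sites L n) :=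
    ⟨_, fun _ => rfl⟩
  have hlog : Real.log 2 ≤ 1 := by
    have := Real.log_two_lt_d9
    linarith
  have hlog0 : 0 ≤ Real.log 2 := Real.log_nonneg (by norm_num)
  have hDel : (Del k M : ℝ) = (k : ℝ) ^ 2 * (4 * M + 3) := by
    unfold SH.Del
    push_cast
    ring
  have hk2 : 0 ≤ (k : ℝ) ^ 2 := by positivity
  -- first sum
  have h1 : |∑ n ∈ Ioc u v, (ind P L n - f n)| ≤ √(8 * c₁ * c₂) * ((M : ℝ) + 1) * √((v : ℝ) - u) := by
    have h2 := hT M 0 u v L hBd (lt_of_le_of_lt huv hv) hv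
    have h3 : ∑ n ∈ Ioc u v, F 0 n * (ind P L n - wtG (kap lam w) (rho N₁) (sites L n)) =
        ∑ n ∈ Ioc u v, (ind P L n - f n) := by
      refine sum_congr rfl fun n _ => ?_
      rw [hF, one_mul, hf]
    have h4 : ∑ n ∈ Ioc u v, (F 0 n) ^ 2 = (v : ℝ) - u := by
      have h5 : ∀ n ∈ Ioc u v, (F 0 n) ^ 2 = 1 := fun n _ => by rw [hF, one_pow]
      rw [sum_congr rfl h5, sum_const, Nat.card_Ioc, nsmul_eq_mul, mul_one, Nat.cast_sub huv]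
    rw [h3, h4, hk] at h2
    refine h2.trans ?_
    unfold SG.Er
    have h6 : √(8 * c₁ * c₂) * ((M : ℝ) + 1) * √((v : ℝ) - u) =
        √(8 * c₁ * c₂ * ((M : ℝ) + 1) ^ 2 * ((v : ℝ) - u)) := by
      rw [Real.sqrt_mul (show 0 ≤ 8 * c₁ * c₂ * ((M : ℝ) + 1) ^ 2 by positivity),
        Real.sqrt_mul (show 0 ≤ 8 * c₁ * c₂ by positivity),
        Real.sqrt_sq (show 0 ≤ (M : ℝ) + 1 by positivity)]
    rw [h6]
    refine Real.sqrt_le_sqrt ?_
    refine mul_le_mul_of_nonneg_right ?_ hvu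
    have h7 : (Del k M : ℝ) + 1 ≤ c₁ * ((M : ℝ) + 1) := by
      rw [hDel, hc₁]
      nlinarith
    have h8 : Lam k M + 2 * Real.log (((0 : ℕ) : ℝ) + 2) ≤ c₂ * ((M : ℝ) + 1) := by
      unfold SH.Lam
      rw [hDel, hc₂, Nat.cast_zero, zero_add]
      have h9 : 0 ≤ (k : ℝ) * M := by positivity
      nlinarith
    have h10 : 0 ≤ (Del k M : ℝ) + 1 := by positivity
    have h11 : 0 ≤ Lam k M + 2 * Real.log (((0 : ℕ) : ℝ) + 2) := by
      unfold SH.Lam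
      rw [Nat.cast_zero, zero_add]
      positivity
    calc 8 * ((Del k M : ℝ) + 1) * (Lam k M + 2 * Real.log (((0 : ℕ) : ℝ) + 2))
        ≤ 8 * (c₁ * ((M : ℝ) + 1)) * (c₂ * ((M : ℝ) + 1)) := by
          refine mul_le_mul ?_ h8 h11 (by positivity)
          linarith
      _ = 8 * c₁ * c₂ * ((M : ℝ) + 1) ^ 2 := by ring
  -- second sum
  obtain ⟨hl0, hl1⟩ : 0 ≤ m ∧ m ≤ K₀ := by
    have h := hlamL L hk hN 0
    rwa [hm 0] at h
  have h2 : |∑ n ∈ Ioc u v, (f n - m * rr N₁ L n)| ≤ B * ((M : ℝ) + 1) := by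
    have h3 : ∀ n ∈ Ioc u v, |f n - m * rr N₁ L n| ≤
        if ¬ (n₀ ≤ n ∧ ¬ Exc L (2 * M + 1) n) then 1 + K₀ else 0 := by
      intro n hn
      rw [mem_Ioc] at hn
      by_cases h4 : ¬ (n₀ ≤ n ∧ ¬ Exc L (2 * M + 1) n)
      · rw [if_pos h4]
        obtain ⟨h5, h6⟩ := hw3 (sites L n)
        rw [← hf] at h5 h6
        obtain ⟨h7, h8⟩ := rr_mem_mainB N₁ hρ L n
        have h9 : 0 ≤ m * rr N₁ L n := mul_nonneg hl0 h7
        have h10 : m * rr N₁ L n ≤ K₀ := by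
          calc m * rr N₁ L n ≤ K₀ * 1 := mul_le_mul hl1 h8 h7 (by linarith)
            _ = K₀ := mul_one _
        rw [abs_le]
        constructor <;> linarith
      · rw [if_neg h4]
        rw [not_not] at h4
        have h5 := value_eq N₁ lam w hw1 R n₀ hn₀ M L hBd hN n h4.1
          (lt_of_le_of_lt hn.2 hv) h4.2
        rw [hf, h5, hm n, sub_self, abs_zero]
    refine (abs_sum_le_sum_abs _ _).trans ((sum_le_sum h3).trans ?_)
    rw [← sum_filter, sum_const, nsmul_eq_mul]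
    have h4 := bad_card_mainB L M n₀ u v
    rw [hk] at h4
    have h5 : ((((Ioc u v).filter (fun n => ¬ (n₀ ≤ n ∧ ¬ Exc L (2 * M + 1) n))).card : ℕ) : ℝ) ≤
        (n₀ : ℝ) + Del k M := by
      have h6 : (((Ioc u v).filter (fun n => ¬ (n₀ ≤ n ∧ ¬ Exc L (2 * M + 1) n))).card : ℕ) ≤
          n₀ + Del k M := le_of_eq_of_le (by congr) h4
      exact_mod_cast h6
    have h7 : (n₀ : ℝ) + Del k M ≤ ((n₀ : ℝ) + 4 * (k : ℝ) ^ 2) * ((M : ℝ) + 1) := by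
      rw [hDel]
      nlinarith [mul_nonneg hn00 hM0]
    calc _ ≤ (((n₀ : ℝ) + 4 * (k : ℝ) ^ 2) * ((M : ℝ) + 1)) * (1 + K₀) :=
          mul_le_mul_of_nonneg_right (h5.trans h7) (by linarith)
      _ = B * ((M : ℝ) + 1) := by rw [hB]; ring
  have h3 : ∑ n ∈ Ioc u v, (ind P L n - m * rr N₁ L n) =
      ∑ n ∈ Ioc u v, (ind P L n - f n) + ∑ n ∈ Ioc u v, (f n - m * rr N₁ L n) := by
    rw [← sum_add_distrib]
    refine sum_congr rfl fun n _ => ?_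
    ring
  rw [h3]
  refine (abs_add_le _ _).trans ((add_le_add h1 h2).trans ?_)
  have h4 : 0 ≤ √((v : ℝ) - u) := Real.sqrt_nonneg _
  have h5 : 0 ≤ √(8 * c₁ * c₂) := Real.sqrt_nonneg _
  have h6 : 0 ≤ √(8 * c₁ * c₂) * ((M : ℝ) + 1) := by positivity
  have h7 : 0 ≤ B * ((M : ℝ) + 1) * √((v : ℝ) - u) := by positivity
  have h8 : 0 ≤ ((M : ℝ) + 1) * (√((v : ℝ) - u) + 1) := by positivity
  nlinarith

end Pool.MP_92ef0c_nt.SI
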