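import Pool.Agent.Lib_MP_92ef0c_si.Defs
import Pool.Agent.Lib_MP_92ef0c_pb.NotQ1

/-! # [SI-V] the factor in Q1 is determined by the set -/

set_option autoImplicit false

namespace Pool.MP_92ef0c_nt.SI

open Finset

/-- lower bound of the main term -/
private theorem main_lower (e r c : ℕ) (hr : 0 < r) (hc : Nat.Coprime c r)
    (hce : Nat.Coprime (c + e) r) (x : ℝ) (hx : 4 ≤ x) :
    x / (2 * r * (Real.log x) ^ 2) ≤
      2 / (((Finset.range r).filter
              (fun A => Nat.Coprime A r ∧ Nat.Coprime (A + e) r)).card : ℝ)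
          * (∏ p ∈ e.primeFactors.filter (fun p => 2 < p),
              (((p : ℝ) - 1) / ((p : ℝ) - 2)))
          * (∏' p : {p : ℕ // p.Prime ∧ 2 < p}, (1 - 1 / (((p : ℕ) : ℝ) - 1) ^ 2))
          * (∫ t in (2 : ℝ)..x, 1 / (Real.log t) ^ 2) := by
  have hprod : 1 ≤ ∏ p ∈ e.primeFactors.filter (fun p => 2 < p), (((p : ℝ) - 1) / ((p : ℝ) - 2)) := by
    have h0 : ∏ _p ∈ e.primeFactors.filter (fun p => 2 < p), (1 : ℝ) ≤
        ∏ p ∈ e.primeFactors.filter (fun p => 2 < p), (((p : ℝ) - 1) / ((p : ℝ) - 2)) := by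
      apply Finset.prod_le_prod (fun _ _ => zero_le_one)
      intro p hp
      rw [mem_filter] at hp
      have h1 : (3 : ℝ) ≤ p := by exact_mod_cast hp.2
      rw [one_le_div (by linarith)]
      linarith
    rwa [Finset.prod_const_one] at h0
  have hC := Pool.MP_92ef0c_nt.PB.twin_const_ge
  generalize (∏ p ∈ e.primeFactors.filter (fun p => 2 < p), (((p : ℝ) - 1) / ((p : ℝ) - 2))) = A
    at hprod
  generalize (∏' p : {p : ℕ // p.Prime ∧ 2 < p}, (1 - 1 / (((p : ℕ) : ℝ) - 1) ^ 2)) = C₂ at hC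
  have hlog : 0 < Real.log x := Real.log_pos (by linarith)
  have hr0 : (0 : ℝ) < r := by exact_mod_cast hr
  have hint : (x - 2) / (Real.log x) ^ 2 ≤ ∫ t in (2 : ℝ)..x, 1 / (Real.log t) ^ 2 := by
    have hcont : ContinuousOn (fun t : ℝ => 1 / (Real.log t) ^ 2) (Set.uIcc 2 x) := by
      intro t ht
      rw [Set.uIcc_of_le (by linarith)] at ht
      have h1 : 0 < Real.log t := Real.log_pos (by linarith [ht.1])
      apply ContinuousAt.continuousWithinAt
      apply ContinuousAt.div continuousAt_const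
      · exact (Real.continuousAt_log (by linarith [ht.1])).pow 2
      · positivity
    have h1 : ∫ _t in (2 : ℝ)..x, 1 / (Real.log x) ^ 2 ≤ ∫ t in (2 : ℝ)..x, 1 / (Real.log t) ^ 2 := by
      apply intervalIntegral.integral_mono_on (by linarith) intervalIntegrable_const
        hcont.intervalIntegrable
      intro t ht
      have h2 : 0 < Real.log t := Real.log_pos (by linarith [ht.1])
      have h3 : Real.log t ≤ Real.log x := Real.log_le_log (by linarith [ht.1]) ht.2
      apply one_div_le_one_div_of_le (by positivity)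
      exact pow_le_pow_left₀ h2.le h3 2
    rw [intervalIntegral.integral_const, smul_eq_mul] at h1
    refine le_trans (le_of_eq ?_) h1
    ring
  have hcard : 2 / (r : ℝ) ≤ 2 / (((Finset.range r).filter
      (fun A => Nat.Coprime A r ∧ Nat.Coprime (A + e) r)).card : ℝ) := by
    apply div_le_div_of_nonneg_left (by norm_num)
    · rw [Nat.cast_pos, card_pos]
      refine ⟨c % r, ?_⟩
      rw [mem_filter, mem_range]
      refine ⟨Nat.mod_lt c hr, ?_, ?_⟩
      · have h1 : Nat.gcd (c % r) r = Nat.gcd r c := (Nat.gcd_rec r c).symm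
        rw [Nat.Coprime, h1, Nat.gcd_comm]
        exact hc
      · have h1 : (c % r + e) % r = (c + e) % r := by rw [Nat.mod_add_mod]
        have h2 : Nat.gcd ((c % r + e) % r) r = Nat.gcd r (c % r + e) := (Nat.gcd_rec r _).symm
        have h3 : Nat.gcd ((c + e) % r) r = Nat.gcd r (c + e) := (Nat.gcd_rec r _).symm
        rw [Nat.Coprime, Nat.gcd_comm, ← h2, h1, h3, Nat.gcd_comm]
        exact hce
    · have h1 := card_filter_le (Finset.range r)
        (fun A => Nat.Coprime A r ∧ Nat.Coprime (A + e) r)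
      rw [card_range] at h1
      exact_mod_cast h1
  generalize 2 / (((Finset.range r).filter
      (fun A => Nat.Coprime A r ∧ Nat.Coprime (A + e) r)).card : ℝ) = G at hcard
  have h2r : 0 < 2 / (r : ℝ) := by positivity
  have hG0 : 0 ≤ G := h2r.le.trans hcard
  have hI0 : 0 ≤ (x - 2) / (Real.log x) ^ 2 := div_nonneg (by linarith) (by positivity)
  have h1 : 1 / (r : ℝ) ≤ G * A * C₂ := by
    have h3 : 2 / (r : ℝ) * 1 ≤ G * A := mul_le_mul hcard hprod zero_le_one hG0
    have h4 : 2 / (r : ℝ) * 1 * (1 / 2) ≤ G * A * C₂ :=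
      mul_le_mul h3 hC (by norm_num) (mul_nonneg hG0 (by linarith))
    calc 1 / (r : ℝ) = 2 / (r : ℝ) * 1 * (1 / 2) := by ring
      _ ≤ _ := h4
  calc x / (2 * r * (Real.log x) ^ 2) = 1 / (r : ℝ) * ((x / 2) / (Real.log x) ^ 2) := by
        field_simp
    _ ≤ 1 / (r : ℝ) * ((x - 2) / (Real.log x) ^ 2) := by
        apply mul_le_mul_of_nonneg_left _ (by positivity)
        apply div_le_div_of_nonneg_right (by linarith) (by positivity)
    _ ≤ G * A * C₂ * (∫ t in (2 : ℝ)..x, 1 / (Real.log t) ^ 2) :=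
        mul_le_mul h1 hint hI0 ((by positivity : (0 : ℝ) ≤ 1 / r).trans h1)

/-- [SI-V] -/
theorem q1_unique (P : Set ℕ) (e r c : ℕ) (hr : 0 < r) (hc : Nat.Coprime c r)
    (hce : Nat.Coprime (c + e) r) (t t' : ℝ) (h : PQR P e r c t) (h' : PQR P e r c t') :
    t = t' := by
  by_contra hne
  have hd : 0 < |t - t'| := abs_pos.2 (sub_ne_zero.2 hne)
  obtain ⟨K, x0, hK⟩ := h 1 3 zero_le_one (by norm_num)
  obtain ⟨K', x0', hK'⟩ := h' 1 3 zero_le_one (by norm_num)
  have hr0 : (0 : ℝ) < r := by exact_mod_cast hr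
  obtain ⟨x, h1, h2, h3, h4⟩ := ((Real.tendsto_log_atTop.eventually_ge_atTop
      (max (r : ℝ) (2 * r * (|K| + |K'| + 1) / |t - t'|))).and
    ((Filter.eventually_ge_atTop (4 : ℝ)).and
    ((Filter.eventually_ge_atTop x0).and (Filter.eventually_ge_atTop x0')))).exists
  have hlog : 0 < Real.log x := Real.log_pos (by linarith)
  have hrx : (r : ℝ) ≤ (Real.log x) ^ (1 : ℝ) := by
    rw [Real.rpow_one]
    exact (le_max_left _ _).trans h1
  have e1 := hK x h3 r c hr (dvd_refl r) (Nat.ModEq.refl c) hrx hc hce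
  have e2 := hK' x h4 r c hr (dvd_refl r) (Nat.ModEq.refl c) hrx hc hce
  have e3 := main_lower e r c hr hc hce x h2
  generalize 2 / (((Finset.range r).filter
              (fun A => Nat.Coprime A r ∧ Nat.Coprime (A + e) r)).card : ℝ)
          * (∏ p ∈ e.primeFactors.filter (fun p => 2 < p),
              (((p : ℝ) - 1) / ((p : ℝ) - 2)))
          * (∏' p : {p : ℕ // p.Prime ∧ 2 < p}, (1 - 1 / (((p : ℕ) : ℝ) - 1) ^ 2))
          * (∫ t in (2 : ℝ)..x, 1 / (Real.log t) ^ 2) = T at e1 e2 e3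
  generalize (open Classical in (((Finset.range (⌊x⌋₊ + 1)).filter
            (fun n => n ∈ P ∧ n + e ∈ P ∧ n ≡ c [MOD r])).card : ℝ)) = N at e1 e2
  have hx0 : 0 < x := by linarith
  have hT0 : 0 < T := lt_of_lt_of_le (by positivity) e3
  have e4 : |t - t'| * T ≤ (|K| + |K'|) * x / (Real.log x) ^ (3 : ℝ) := by
    have h5 : |t - t'| * T = |(N - t' * T) - (N - t * T)| := by
      rw [← abs_of_pos hT0, ← abs_mul, abs_of_pos hT0]
      congr 1
      ring
    rw [h5]
    have h6 := abs_sub (N - t' * T) (N - t * T)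
    have hl3 : 0 < (Real.log x) ^ (3 : ℝ) := Real.rpow_pos_of_pos hlog _
    have h7 : K * x / (Real.log x) ^ (3 : ℝ) ≤ |K| * x / (Real.log x) ^ (3 : ℝ) :=
      div_le_div_of_nonneg_right (mul_le_mul_of_nonneg_right (le_abs_self K) hx0.le) hl3.le
    have h8 : K' * x / (Real.log x) ^ (3 : ℝ) ≤ |K'| * x / (Real.log x) ^ (3 : ℝ) :=
      div_le_div_of_nonneg_right (mul_le_mul_of_nonneg_right (le_abs_self K') hx0.le) hl3.le
    have h9 : (|K| + |K'|) * x / (Real.log x) ^ (3 : ℝ) = |K| * x / (Real.log x) ^ (3 : ℝ) +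
        |K'| * x / (Real.log x) ^ (3 : ℝ) := by ring
    rw [h9]
    linarith
  have hl3 : (Real.log x) ^ (3 : ℝ) = (Real.log x) ^ 2 * Real.log x := by
    rw [show (3 : ℝ) = ((3 : ℕ) : ℝ) by norm_num, Real.rpow_natCast]; ring
  have e5 : |t - t'| * (x / (2 * r * (Real.log x) ^ 2)) ≤
      (|K| + |K'|) * x / ((Real.log x) ^ 2 * Real.log x) := by
    rw [← hl3]
    exact (mul_le_mul_of_nonneg_left e3 hd.le).trans e4
  have e6 : |t - t'| * Real.log x ≤ 2 * r * (|K| + |K'|) := by
    have h5 : 0 < (Real.log x) ^ 2 * Real.log x := by positivity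
    rw [le_div_iff₀ h5] at e5
    have h6 : |t - t'| * (x / (2 * r * (Real.log x) ^ 2)) * ((Real.log x) ^ 2 * Real.log x) =
        |t - t'| * Real.log x * (x / (2 * r)) := by
      field_simp
    rw [h6] at e5
    have h7 : (|K| + |K'|) * x = 2 * r * (|K| + |K'|) * (x / (2 * r)) := by
      field_simp
    rw [h7] at e5
    exact le_of_mul_le_mul_right e5 (by positivity)
  have e7 : 2 * r * (|K| + |K'| + 1) / |t - t'| ≤ Real.log x := (le_max_right _ _).trans h1
  rw [div_le_iff₀ hd] at e7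
  nlinarith

end Pool.MP_92ef0c_nt.SI
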