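import Pool.Agent.Lib_MP_92ef0c_si.ExistW
import Pool.Agent.Lib_MP_92ef0c_sg.Exist
import Pool.Agent.Lib_MP_92ef0c_pb.Mert
import Pool.Agent.Lib_MP_92ef0c_si.FinP
import Pool.Agent.Lib_MP_92ef0c_si.MainB
import Pool.Agent.Lib_MP_92ef0c_si.Dick
import Pool.Agent.Lib_MP_92ef0c_si.Q1g
import Pool.Agent.Lib_MP_92ef0c_si.Q1u
import Pool.Agent.Lib_MP_92ef0c_si.CompF
import Pool.Agent.Lib_MP_92ef0c_si.Bil

/-! # assembly -/

set_option autoImplicit false

namespace Pool.MP_92ef0c_nt.SI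

open Finset
open Pool.MP_92ef0c_nt.PB (Pz V zz Rough rho rho_bounds rough_of_rho_pos)
open Pool.MP_92ef0c_nt.SH (EX ind rr gg Bd Prim IsD SSL Del Lam Exc Inter)
open Pool.MP_92ef0c_nt.SG (nbr kap wtG muG sites Par Er Wid Tst sg conv bilc FF exists_PP FF_zero)

/-- the factor of a pair of forms -/
private theorem facn_pair (lam : Finset ℕ → ℝ) (q a₀ e : ℕ) (he0 : 0 < e) (n : ℕ) :
    facn lam {(q, a₀), (q, a₀ + e)} n = lam {q * n + a₀, q * n + a₀ + e} := by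
  classical
  have hne : ((q, a₀) : ℕ × ℕ) ≠ (q, a₀ + e) := by
    intro h
    have := congrArg Prod.snd h
    simp only at this
    omega
  have hcard : ({(q, a₀), (q, a₀ + e)} : Finset (ℕ × ℕ)).card = 2 := card_pair hne
  have hPar : Par ({(q, a₀), (q, a₀ + e)} : Finset (ℕ × ℕ)) := by
    intro l hl l' hl'
    rw [mem_insert, mem_singleton] at hl hl'
    rcases hl with rfl | rfl <;> rcases hl' with rfl | rfl <;> rfl
  unfold facn
  rw [Finset.prod_eq_single ({(q, a₀), (q, a₀ + e)} : Finset (ℕ × ℕ))]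
  · rw [if_pos ⟨hcard.ge, hPar⟩]
    congr 1
    unfold SG.sites
    rw [image_insert, image_singleton, add_assoc]
  · intro A hA hAne
    rw [if_neg]
    rintro ⟨h2, _⟩
    apply hAne
    apply Finset.eq_of_subset_of_card_le (mem_powerset.1 hA)
    rw [hcard]
    exact h2
  · intro h
    exact absurd (mem_powerset_self _) h

/-- everything -/
theorem main (F : ℕ → ℕ → ℝ) : ∃ P : (Finset ℕ → ℝ) → Set ℕ,
    ∀ lam : Finset ℕ → ℝ, Adm lam →
      (∀ n ∈ P lam, ∀ p, p.Prime → p ∣ n → 2 ^ Nat.sqrt (Nat.log 2 n) < p) ∧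
      (∀ A : Finset ℕ, 2 ≤ A.card →
        {n | (∀ a ∈ A, a + n ∈ P lam) ∧ lam (A.image (fun a => a + n)) = 0}.Finite) ∧
      (∀ (k R : ℕ) (ε : ℝ), 0 < ε → ∃ c K : ℝ, 0 < c ∧ 0 < K ∧
        ∀ (x : ℕ) (L : Finset (ℕ × ℕ)) (m : ℝ),
        2 ≤ x → L.card = k → Prim L → (∀ l ∈ L, l.1 ≤ x ∧ l.2 ≤ x) → Near lam R L →
        (∀ n, facn lam L n = m) →
        ∀ u v : ℕ, u ≤ v → v ≤ x → (x : ℝ) ^ ε ≤ (v : ℝ) - u → ∃ S : ℝ, IsD L S ∧
          |∑ n ∈ Ioc u v, ind (P lam) L n - m * S * ∑ n ∈ Ioc (max u 1) v, gg L n| ≤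
            K * ((v : ℝ) - u) * Real.exp (-(c * √(Real.log x)))) ∧
      (∀ e r c : ℕ, 0 < e → Even e → 0 < r → Nat.Coprime c r → Nat.Coprime (c + e) r →
        ∀ m : ℝ, (∀ n, n ≡ c [MOD r] → lam {n, n + e} = m) →
        ∀ t : ℝ, (PQR (P lam) e r c t ↔ t = m)) ∧
      (∀ lam' : Finset ℕ → ℝ, Adm lam' → ∀ k R : ℕ, ∃ K : ℝ, 0 < K ∧
        ∀ (x : ℕ) (L : Finset (ℕ × ℕ)), 2 ≤ x → L.card = k →
        (∀ l ∈ L, 0 < l.1 ∧ l.1 ≤ x ∧ l.2 ≤ x) → Near lam R L → Near lam' R L →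
        (∀ n, facn lam L n = facn lam' L n) →
        (∀ i u v : ℕ, u ≤ v → v ≤ x →
          |∑ n ∈ Ioc u v, F i n * (ind (P lam) L n - ind (P lam') L n)| ≤
            K * √(Real.log x * Real.log ((x : ℝ) + i) * ∑ n ∈ Ioc u v, (F i n) ^ 2)) ∧
        ∀ (m₀ n₀ : ℕ), m₀ * n₀ ≤ x → ∀ α β : ℕ → ℝ, (∀ m, |α m| ≤ 1) → (∀ n, |β n| ≤ 1) →
          |∑ m ∈ Icc 1 m₀, ∑ n ∈ Icc 1 n₀, α m * β n *
            (ind (P lam) L (m * n) - ind (P lam') L (m * n))| ≤
            K * (Real.log x) ^ 2 * √((m₀ : ℝ) * n₀ * (m₀ + n₀))) := by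
  classical
  obtain ⟨N₁, hN₁⟩ := rho_bounds
  have hρ := hN₁ N₁ le_rfl
  have hW : ∀ lam : Finset ℕ → ℝ, ∃ w : ℕ → ℕ, ∃ P : Set ℕ, Adm lam → Wid N₁ lam w ∧
      (∀ n ∈ P, 0 < rho N₁ n) ∧
      (∀ A : Finset ℕ, (∀ a ∈ A, a ∈ P) → kap lam w A ≠ 0) ∧ Tst N₁ lam w (FF F) P := by
    intro lam
    by_cases h : Adm lam
    · obtain ⟨w, hw, hpos⟩ := exists_width N₁ hρ lam h
      obtain ⟨P, hP⟩ := exists_PP N₁ hρ lam w hw hpos (FF F)
      exact ⟨w, P, fun _ => ⟨hw, hP⟩⟩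
    · exact ⟨fun _ => 0, ∅, fun h' => absurd h' h⟩
  choose w P hP using hW
  refine ⟨P, fun lam hlam => ?_⟩
  obtain ⟨hwid, hpos, hker, htst⟩ := hP lam hlam
  have hdick : ∀ (k R : ℕ) (ε : ℝ), 0 < ε → ∃ c K : ℝ, 0 < c ∧ 0 < K ∧
        ∀ (x : ℕ) (L : Finset (ℕ × ℕ)) (m : ℝ),
        2 ≤ x → L.card = k → Prim L → (∀ l ∈ L, l.1 ≤ x ∧ l.2 ≤ x) →
        (Near lam R L ∧ ∀ n, facn lam L n = m) →
        ∀ u v : ℕ, u ≤ v → v ≤ x → (x : ℝ) ^ ε ≤ (v : ℝ) - u → ∃ S : ℝ, IsD L S ∧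
          |∑ n ∈ Ioc u v, ind (P lam) L n - m * S * ∑ n ∈ Ioc (max u 1) v, gg L n| ≤
            K * ((v : ℝ) - u) * Real.exp (-(c * √(Real.log x))) := by
    intro k R ε hε
    obtain ⟨K₁, hK₁, h1⟩ := main_bound N₁ hρ lam hlam (w lam) hwid k R
    obtain ⟨K₂, hK₂, h2⟩ := facn_bound lam hlam k R
    refine dickson_gen N₁ hρ (P lam) k (K₁ + K₂) (fun L m => Near lam R L ∧ ∀ n, facn lam L n = m)
      ?_ ?_ ε hε
    · intro M L m hk hB hN u v huv hv
      refine (h1 (FF F) (P lam) (FF_zero F) htst M L m hk hB hN.1 hN.2 u v huv hv).trans ?_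
      have h3 : 0 ≤ √((v : ℝ) - u) + 1 := by positivity
      have h4 : 0 ≤ (M : ℝ) + 1 := by positivity
      refine mul_le_mul_of_nonneg_right (mul_le_mul_of_nonneg_right ?_ h4) h3
      linarith
    · intro L m hk hN
      have h3 := h2 L hk hN.1 0
      rw [hN.2 0] at h3
      exact ⟨h3.1, h3.2.trans (by linarith)⟩
  refine ⟨?_, ?_, ?_, ?_, ?_⟩
  · intro n hn p hp hpn
    have h2 := rough_of_rho_pos (hpos n hn)
    by_contra h3
    exact h2 p hp (not_lt.1 h3) hpn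
  · intro A hA
    exact fin_pattern lam (w lam) hwid.2.1 (P lam) hker A hA
  · intro k R ε hε
    obtain ⟨c, K, hc, hK, h1⟩ := hdick k R ε hε
    exact ⟨c, K, hc, hK, fun x L m hx hk hp hL hN hm => h1 x L m hx hk hp hL ⟨hN, hm⟩⟩
  · intro e r c he0 he hr hc hce m hm t
    have hm0 : 0 ≤ m := by
      rw [← hm c (Nat.ModEq.refl c)]
      exact hlam.1 _
    have h1 : PQR (P lam) e r c m := by
      refine q1_gen (P lam) m hm0 e r c he0 he ?_
      intro ε hε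
      obtain ⟨c', K, hc', hK, h1⟩ := hdick 2 e ε hε
      refine ⟨c', K, hc', hK, ?_⟩
      intro x q a₀ hx hq hrq hac hca hcae hqx hax u v huv hvx hxε
      have hne : ((q, a₀) : ℕ × ℕ) ≠ (q, a₀ + e) := by
        intro h
        have := congrArg Prod.snd h
        simp only at this
        omega
      refine h1 x {(q, a₀), (q, a₀ + e)} m hx (card_pair hne) ?_ ?_ ⟨?_, ?_⟩ u v huv hvx hxε
      · intro l hl
        rw [mem_insert, mem_singleton] at hl
        rcases hl with rfl | rfl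
        · exact ⟨hq, hca⟩
        · exact ⟨hq, hcae⟩
      · intro l hl
        rw [mem_insert, mem_singleton] at hl
        rcases hl with rfl | rfl
        · exact ⟨hqx, by show a₀ ≤ x; omega⟩
        · exact ⟨hqx, hax⟩
      · intro A hA _ _
        left
        intro l hl l' hl'
        have g1 := hA hl
        have g2 := hA hl'
        rw [mem_insert, mem_singleton] at g1 g2
        rcases g1 with rfl | rfl <;> rcases g2 with rfl | rfl
        · show a₀ ≤ a₀ + e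
          omega
        · show a₀ ≤ a₀ + e + e
          omega
        · show a₀ + e ≤ a₀ + e
          omega
        · show a₀ + e ≤ a₀ + e + e
          omega
      · intro n
        rw [facn_pair lam q a₀ e he0 n]
        apply hm
        have h2 : q * n + a₀ ≡ 0 + a₀ [MOD r] := by
          apply Nat.ModEq.add_right
          exact (Nat.modEq_zero_iff_dvd.2 (hrq.mul_right n))
        rw [zero_add] at h2
        exact h2.trans hac
    constructor
    · intro h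
      exact q1_unique (P lam) e r c hr hc hce t m h h1
    · rintro rfl
      exact h1
  · intro lam' hlam' k R
    obtain ⟨hwid', -, -, htst'⟩ := hP lam' hlam'
    obtain ⟨K₁, hK₁, h1⟩ := compare_F N₁ lam lam' (w lam) (w lam') hwid hwid' k R
    obtain ⟨K₂, hK₂, h2⟩ := compare_bil N₁ lam lam' (w lam) (w lam') hwid hwid' k R
    refine ⟨K₁ + K₂, by linarith, fun x L hx hk hL hN hN' hS => ⟨?_, ?_⟩⟩
    · intro i u v huv hv
      refine (h1 F (P lam) (P lam') htst htst' x i L hx hk hL hN hN' hS u v huv hv).trans ?_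
      exact mul_le_mul_of_nonneg_right (by linarith) (Real.sqrt_nonneg _)
    · intro m₀ n₀ hmn α β hα hβ
      refine (h2 F (P lam) (P lam') htst htst' x L hx hk hL hN hN' hS m₀ n₀ hmn α β hα hβ).trans ?_
      refine mul_le_mul_of_nonneg_right ?_ (Real.sqrt_nonneg _)
      exact mul_le_mul_of_nonneg_right (by linarith) (sq_nonneg _)

end Pool.MP_92ef0c_nt.SI
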